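import Mathlib

/-!
# Singular cardinals of cofinality `ℵ₁`
-/

set_option autoImplicit false

namespace Pool.Agent.V11242.CL

open Cardinal Ordinal

theorem exists_order {κ : Cardinal.{0}} (hcof : κ.ord.cof = ℵ₁) :
    ∃ (J : Type) (_ : LinearOrder J) (_ : WellFoundedLT J), #J = κ ∧ (∀ b : J, #(Set.Iio b) < κ) ∧
      (∀ S : Set J, S.Countable → ∃ b, ∀ s ∈ S, s < b) ∧
      ∃ g : (ℵ₁ : Cardinal.{0}).out → J, ∀ b, ∃ y, b ≤ g y := by
  have hc : Order.cof κ.ord.ToType = ℵ₁ := by rw [cof_toType, hcof]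
  have hcard : #(κ.ord.ToType) = κ := by rw [mk_toType, card_ord]
  refine ⟨κ.ord.ToType, inferInstance, inferInstance, hcard, fun b => ?_, fun S hS => ?_, ?_⟩
  · have := Cardinal.mk_Iio_lt b (by rw [hcard, type_toType])
    rwa [hcard] at this
  · by_contra hcon
    push Not at hcon
    have h1 : IsCofinal S := fun b => by
      obtain ⟨s, hs, hb⟩ := hcon b
      exact ⟨s, hs, hb⟩
    have h2 := Order.cof_le h1
    rw [hc] at h2
    have h3 : #S ≤ ℵ₀ := Cardinal.le_aleph0_iff_set_countable.2 hS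
    exact absurd (h2.trans h3) (not_le.2 Cardinal.aleph0_lt_aleph_one)
  · obtain ⟨s, hs, hs'⟩ := Order.exists_cof_eq κ.ord.ToType
    rw [hc] at hs'
    obtain ⟨e⟩ : Nonempty ((ℵ₁ : Cardinal.{0}).out ≃ s) := Cardinal.eq.1 (by rw [mk_out, hs'])
    refine ⟨fun y => (e y).1, fun b => ?_⟩
    obtain ⟨c, hc, hbc⟩ := hs b
    exact ⟨e.symm ⟨c, hc⟩, by simpa using hbc⟩

theorem aleph0_lt_of_cof {κ : Cardinal.{0}} (hcof : κ.ord.cof = ℵ₁) : ℵ₀ < κ := by
  have := cof_ord_le κ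
  rw [hcof] at this
  exact aleph0_lt_aleph_one.trans_le this

/-- a strong limit cardinal `κ` of cofinality `ℵ₁` satisfies `κ ^ ℵ₀ = κ` -/
theorem pow_aleph0_eq {κ : Cardinal.{0}} (h : κ.IsStrongLimit) (hcof : κ.ord.cof = ℵ₁) :
    κ ^ ℵ₀ = κ := by
  obtain ⟨J, _, _, hJ, hIio, hb, _⟩ := exists_order hcof
  apply le_antisymm _ (self_le_power κ one_le_aleph0)
  have hinf : ℵ₀ ≤ κ := h.aleph0_le
  have h1 : κ ^ ℵ₀ = #(ℕ → J) := by simp [mk_pi, hJ]
  rw [h1]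
  have h2 : ∀ f : ℕ → J, ∃ b, ∀ n, f n < b := fun f => by
    obtain ⟨b, hb'⟩ := hb (Set.range f) (Set.countable_range f)
    exact ⟨b, fun n => hb' _ ⟨n, rfl⟩⟩
  choose b hb' using h2
  have h3 : #(ℕ → J) ≤ #(Σ c : J, ℕ → Set.Iio c) := by
    refine mk_le_of_injective (f := fun f => ⟨b f, fun n => ⟨f n, hb' f n⟩⟩) ?_
    intro f f' hff
    simp only [Sigma.mk.injEq] at hff
    obtain ⟨h4, h5⟩ := hff
    funext n
    have : ∀ (c c' : J) (u : ℕ → Set.Iio c) (u' : ℕ → Set.Iio c'), c = c' → HEq u u' →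
        (u n).1 = (u' n).1 := by
      rintro c _ u u' rfl h
      rw [eq_of_heq h]
    exact this _ _ _ _ h4 h5
  refine h3.trans ?_
  rw [mk_sigma]
  refine (Cardinal.sum_le_sum _ (fun _ => κ) fun c => ?_).trans ?_
  · have h6 : #(ℕ → Set.Iio c) = #(Set.Iio c) ^ ℵ₀ := by simp [mk_pi]
    rw [h6]
    have h7 : #(Set.Iio c) ≤ max (#(Set.Iio c)) ℵ₀ := le_max_left _ _
    have h8 : max (#(Set.Iio c)) ℵ₀ ≠ 0 := (aleph0_pos.trans_le (le_max_right _ _)).ne'
    refine (power_le_power_right h7).trans ?_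
    refine (power_le_power_left h8 (le_max_right (#(Set.Iio c)) ℵ₀)).trans ?_
    rw [power_self_eq (le_max_right _ _)]
    exact (h.isStrongPrelimit (max_lt (hIio c) (aleph0_lt_of_cof hcof))).le
  · rw [Cardinal.sum_const', hJ]
    exact (mul_eq_self hinf).le

theorem cof_beth : (ℶ_ ω₁ : Cardinal.{0}).ord.cof = ℵ₁ := by
  have h := cof_map_of_isNormal (isNormal_ord.comp isNormal_beth) (isSuccLimit_omega 1)
  exact h.trans cof_omega_one

theorem isStrongLimit_beth' : (ℶ_ ω₁ : Cardinal.{0}).IsStrongLimit :=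
  isStrongLimit_beth.2 (isSuccLimit_omega 1).isSuccPrelimit

/-- The cardinal `κ = ℶ_{ω₁}` can be divided into `ℵ₁` blocks such that all unions of countably
many blocks are small. -/
theorem exists_blocks {κ : Cardinal.{0}} (hcof : κ.ord.cof = ℵ₁) :
    ∃ bl : κ.out → (ℵ₁ : Cardinal.{0}).out,
      ∀ S : Set (ℵ₁ : Cardinal.{0}).out, S.Countable → #(bl ⁻¹' S) < #κ.out := by
  obtain ⟨J, _, _, hJ, hIio, hb, g, hg⟩ := exists_order hcof
  obtain ⟨e⟩ : Nonempty (κ.out ≃ J) := Cardinal.eq.1 (by rw [mk_out, hJ])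
  choose f hf using hg
  refine ⟨fun x => f (e x), fun S hS => ?_⟩
  obtain ⟨b, hb'⟩ := hb (g '' S) (hS.image g)
  have h1 : (fun x => f (e x)) ⁻¹' S ⊆ e ⁻¹' (Set.Iio b) := by
    intro x hx
    exact (hf (e x)).trans_lt (hb' _ ⟨_, hx, rfl⟩)
  refine (mk_le_mk_of_subset h1).trans_lt ?_
  rw [mk_preimage_equiv, mk_out]
  exact hIio b

end Pool.Agent.V11242.CL
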