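import Mathlib
import Pool.Agent.Helper669.Forcing

/-!
# Luzin sets which are unions of few meager sets, in the forcing language
-/

set_option autoImplicit false

namespace Pool.Agent.V11242.CL

open Cardinal Pool.Agent.Helper669.Forcing

/-- In the extension there is a function from `κ` to a smaller cardinal `μ` such that no preimage
of a point is of the same size as `κ`. If `κ` is an infinite cardinal of the extension, this means
that it is singular. -/
def SingularIs (P : Type) [Preorder P] (κ : Cardinal.{0}) : Set P :=
  fex fun μ : Cardinal.{0} => fex fun _ : μ < κ => fex fun R : κ.out → μ.out → Set P =>
    fand (IsFun R) (fall fun i => fnot (FullSize fun x => meets (R x i)))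

/-- In the extension there is a family `E` of pairwise different elements of the Baire space, which
is indexed by `κ`, with the following properties. Every meager set contains fewer than `κ` members
of `E`: the set of their indices is not of the same size as `κ`. There are meager sets `T j`
(`j < μ`) for a cardinal `μ < κ` such that each member of `E` belongs to one of them. So
the set of the members of `E` is a `κ`-Luzin set, and it is the union of fewer than `κ` many meager
sets. -/
def HasCoveredLuzinSet (P : Type) [Preorder P] (κ : Cardinal.{0}) : Set P :=
  fex fun E : κ.out → ℕ → ℕ → Set P =>
    fand (fall fun i => IsFun (E i))
      (fand (fall fun i => fall fun j => fall fun _ : i ≠ j => fnot (SameReal (E i) (E j)))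
        (fand
          (fall fun T : ℕ → List ℕ → Set P =>
            fimp (IsMeagerCode T) (fnot (FullSize fun i => InMeager (E i) T)))
          (fex fun μ : Cardinal.{0} => fex fun _ : μ < κ =>
            fex fun T : μ.out → ℕ → List ℕ → Set P =>
              fand (fall fun j => IsMeagerCode (T j))
                (fall fun i => fex fun j => InMeager (E i) (T j)))))

end Pool.Agent.V11242.CL
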