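import Mathlib
import Pool.Agent.H458R4.Cohen2
import Pool.Agent.V11242.CL.Defs

/-!
# Cohen reals: several coordinates
-/

set_option autoImplicit false

namespace Pool.Agent.V11242.CL

open Cardinal Set Pool.Agent.Helper669.Forcing Pool.Agent.H458R4.Cohen

variable {ι : Type}

/-- deciding one value -/
theorem decide_one (α : ι) (n : ℕ) (p : Fn ι) : ∃ q ≤ p, ∃ k, q ∈ X α n k ∧
    ∀ y ∈ q.g, y ∈ p.g ∨ (y.1.1, (Nat.unpair y.1.2).1) = (α, n) := by
  classical
  have hex : ∃ k, ((α, Nat.pair n k), false) ∉ p.g := by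
    by_contra hcon
    push Not at hcon
    have hinj : Function.Injective fun k : ℕ => ((α, Nat.pair n k), false) := by
      intro k k' h
      simp only [Prod.mk.injEq, true_and, and_true, Nat.pair_eq_pair] at h
      exact h
    exact Set.infinite_of_injective_forall_mem hinj hcon (Finset.finite_toSet p.g)
  let k := Nat.find hex
  have hk : ((α, Nat.pair n k), false) ∉ p.g := Nat.find_spec hex
  have hk' : ∀ j < k, ((α, Nat.pair n j), false) ∈ p.g := fun j hj => by
    have := Nat.find_min hex hj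
    rwa [not_not] at this
  refine ⟨⟨insert ((α, Nat.pair n k), true) p.g, fun a b b' hb hb' => ?_⟩,
    Finset.subset_insert _ _, k, ⟨Finset.mem_insert_self _ _,
      fun j hj => Finset.mem_insert_of_mem (hk' j hj)⟩, fun y hy => ?_⟩
  · rcases Finset.mem_insert.1 hb with hb | hb <;> rcases Finset.mem_insert.1 hb' with hb' | hb'
    · simp only [Prod.mk.injEq] at hb hb'
      rw [hb.2, hb'.2]
    · simp only [Prod.mk.injEq] at hb
      obtain ⟨rfl, rfl⟩ := hb
      cases b'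
      · exact absurd hb' hk
      · rfl
    · simp only [Prod.mk.injEq] at hb'
      obtain ⟨rfl, rfl⟩ := hb'
      cases b
      · exact absurd hb hk
      · rfl
    · exact p.fn a b b' hb hb'
  · rcases Finset.mem_insert.1 hy with hy | hy
    · right
      rw [hy]
      simp
    · exact Or.inl hy

/-- deciding finitely many values -/
theorem decide_many (D : Finset (ι × ℕ)) (p : Fn ι) : ∃ q ≤ p,
    (∀ d ∈ D, ∃ k, q ∈ X d.1 d.2 k) ∧
    ∀ y ∈ q.g, y ∈ p.g ∨ (y.1.1, (Nat.unpair y.1.2).1) ∈ D := by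
  classical
  induction D using Finset.induction_on with
  | empty => exact ⟨p, le_rfl, fun d hd => absurd hd (Finset.notMem_empty _), fun y hy => Or.inl hy⟩
  | insert d D _ ih =>
    obtain ⟨q, h1, h2, h3⟩ := ih
    obtain ⟨r, h4, k, h5, h6⟩ := decide_one d.1 d.2 q
    refine ⟨r, h4.trans h1, fun e he => ?_, fun y hy => ?_⟩
    · rcases Finset.mem_insert.1 he with rfl | he
      · exact ⟨k, h5⟩
      · obtain ⟨k', hk'⟩ := h2 e he
        exact ⟨k', down_X _ _ _ _ hk' _ h4⟩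
    · rcases h6 y hy with h | h
      · rcases h3 y h with h | h
        · exact Or.inl h
        · exact Or.inr (Finset.mem_insert_of_mem h)
      · exact Or.inr (by rw [h]; exact Finset.mem_insert_self _ _)

/-- deciding initial segments -/
theorem clean_many (F : Finset ι) (M : ℕ) (p : Fn ι) : ∃ q ≤ p, ∃ N ≥ M, ∃ f : ι → ℕ → ℕ,
    (∀ α ∈ F, ∀ n < N, q ∈ X α n (f α n)) ∧
      ∀ α ∈ F, ∀ n ≥ N, ∀ k b, ((α, Nat.pair n k), b) ∉ q.g := by
  classical
  obtain ⟨N, hNM, hN⟩ : ∃ N ≥ M, ∀ α, ∀ n ≥ N, ∀ k b, ((α, Nat.pair n k), b) ∉ p.g := by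
    obtain ⟨N, hN⟩ := (p.g.image fun x => (Nat.unpair x.1.2).1).finite_toSet.bddAbove
    refine ⟨max M (N + 1), le_max_left _ _, fun α n hn k b h => ?_⟩
    have h1 : n ∈ (↑(p.g.image fun x => (Nat.unpair x.1.2).1) : Set ℕ) := by
      rw [Finset.mem_coe, Finset.mem_image]
      exact ⟨_, h, by simp⟩
    have h2 := hN h1
    have h3 := (le_max_right M (N + 1)).trans hn
    omega
  obtain ⟨q, h1, h2, h3⟩ := decide_many (F ×ˢ Finset.range N) p
  have h5 : ∀ α n, ∃ k, α ∈ F → n < N → q ∈ X α n k := by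
    intro α n
    by_cases h : α ∈ F ∧ n < N
    · obtain ⟨k, hk⟩ := h2 (α, n) (Finset.mem_product.2 ⟨h.1, Finset.mem_range.2 h.2⟩)
      exact ⟨k, fun _ _ => hk⟩
    · exact ⟨0, fun h6 h7 => absurd ⟨h6, h7⟩ h⟩
  choose f hf using h5
  refine ⟨q, h1, N, hNM, f, fun α hα n hn => hf α n hα hn, fun α hα n hn k b hb => ?_⟩
  rcases h3 _ hb with h | h
  · exact hN α n hn k b h
  · have h6 := (Finset.mem_product.1 h).2
    simp only [Nat.unpair_pair, Finset.mem_range] at h6
    omega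

/-- prescribing finitely many values -/
theorem prescribe_many (D : Finset (ι × ℕ)) {q : Fn ι}
    (hq : ∀ d ∈ D, ∀ k b, ((d.1, Nat.pair d.2 k), b) ∉ q.g) (f : ι × ℕ → ℕ) :
    ∃ r ≤ q, ∀ d ∈ D, r ∈ X d.1 d.2 (f d) := by
  classical
  let G : Finset ((ι × ℕ) × Bool) := D.biUnion fun d =>
    (Finset.range (f d + 1)).image fun j => ((d.1, Nat.pair d.2 j), decide (j = f d))
  have hG : ∀ a b, (a, b) ∈ G ↔ ∃ d ∈ D, ∃ j ≤ f d, a = (d.1, Nat.pair d.2 j) ∧
      b = decide (j = f d) := by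
    intro a b
    simp only [G, Finset.mem_biUnion, Finset.mem_image, Finset.mem_range,
      Prod.mk.injEq, Nat.lt_succ_iff]
    constructor
    · rintro ⟨d, h1, j, h3, h4, h5⟩
      exact ⟨d, h1, j, h3, h4.symm, h5.symm⟩
    · rintro ⟨d, h1, j, h3, h4, h5⟩
      exact ⟨d, h1, j, h3, h4.symm, h5.symm⟩
  refine ⟨⟨q.g ∪ G, fun a b b' hb hb' => ?_⟩, Finset.subset_union_left, fun d hd => ⟨?_, ?_⟩⟩
  · rcases Finset.mem_union.1 hb with hb | hb <;> rcases Finset.mem_union.1 hb' with hb' | hb'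
    · exact q.fn a b b' hb hb'
    · obtain ⟨d, h1, j, _, h4, _⟩ := (hG a b').1 hb'
      rw [h4] at hb
      exact absurd hb (hq d h1 j b)
    · obtain ⟨d, h1, j, _, h4, _⟩ := (hG a b).1 hb
      rw [h4] at hb'
      exact absurd hb' (hq d h1 j b')
    · obtain ⟨d, _, j, _, h4, h5⟩ := (hG a b).1 hb
      obtain ⟨d', _, j', _, h4', h5'⟩ := (hG a b').1 hb'
      rw [h4] at h4'
      simp only [Prod.mk.injEq, Nat.pair_eq_pair] at h4'
      have hd : d = d' := Prod.ext h4'.1 h4'.2.1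
      rw [h5, h5', hd, h4'.2.2]
  · exact Finset.mem_union_right _ ((hG _ _).2 ⟨d, hd, f d, le_rfl, rfl, by simp⟩)
  · intro j hj
    exact Finset.mem_union_right _ ((hG _ _).2 ⟨d, hd, j, hj.le, rfl, by simp [hj.ne]⟩)

/-- The union of two compatible conditions. -/
theorem exists_union {a r : Fn ι} (h : Compat a r) : ∃ s : Fn ι, s ≤ a ∧ s ≤ r ∧
    ∀ y ∈ s.g, y ∈ a.g ∨ y ∈ r.g := by
  classical
  rw [compat_iff] at h
  refine ⟨⟨a.g ∪ r.g, fun x b b' hb hb' => ?_⟩, Finset.subset_union_left,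
    Finset.subset_union_right, fun y hy => Finset.mem_union.1 hy⟩
  rcases Finset.mem_union.1 hb with hb | hb <;> rcases Finset.mem_union.1 hb' with hb' | hb'
  · exact a.fn x b b' hb hb'
  · exact h x b b' hb hb'
  · exact (h x b' b hb' hb).symm
  · exact r.fn x b b' hb hb'

/-- Let the set of all `k` with `φ k` be forced to be of the same size as the uncountable set `K`.
Then for every subset `C` of `K` of smaller size some stronger condition forces `φ k` for an
element `k` outside of `C`. -/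
theorem exists_mem_outside {K : Type} (hK : ℵ₀ < #K) {φ : K → Set (Fn ι)} {q : Fn ι}
    (hA : q ∈ FullSize φ) {C : Set K} (hC : #C < #K) : ∃ k, k ∉ C ∧ ∃ r ≤ q, r ∈ φ k := by
  classical
  obtain ⟨r, hr, g, hg1, hg2, hg3⟩ := mem_fex.1 hA q le_rfl
  have h1 : ∀ x : K, ∃ s ≤ r, ∃ y, s ∈ meets (g x y) ∧ s ∈ φ y := by
    intro x
    obtain ⟨s, hs, y, hy⟩ := mem_fex.1 (hg1.1 x) r le_rfl
    obtain ⟨t, ht, h⟩ := mem_fimp.1 (hg3 x y) s hs hy
    exact ⟨t, ht.trans hs, y, down_meets _ _ hy _ ht, h⟩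
  choose s hs y hy hy' using h1
  by_contra hcon
  push Not at hcon
  have hyC : ∀ x, y x ∈ C := by
    intro x
    by_contra hne
    exact hcon (y x) hne (s x) ((hs x).trans hr) (hy' x)
  have hinc : ∀ x x', y x = y x' → Compat (s x) (s x') → x = x' := by
    rintro x x' he ⟨t, ht1, ht2⟩
    have h3 := down_meets _ _ (hy x) t ht1
    have h4 := down_meets _ _ (hy x') t ht2
    rw [he] at h3
    exact IsInj.eq (down_IsInj _ _ hg2 t (ht1.trans (hs x))) h3 h4
  have h2 : ∀ c : K, #{x | y x = c} ≤ ℵ₀ := by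
    intro c
    rw [Cardinal.le_aleph0_iff_set_countable]
    have h3 : (s '' {x | y x = c}).Countable := by
      refine ccc _ ?_
      rintro _ ⟨x, hx, rfl⟩ _ ⟨x', hx', rfl⟩ hc
      have : x = x' := hinc x x' (Eq.trans hx (Eq.symm hx')) hc
      rw [this]
    refine Set.countable_of_injective_of_countable_image ?_ h3
    intro x hx x' hx' he
    exact hinc x x' (Eq.trans hx (Eq.symm hx')) (by rw [he]; exact ⟨_, le_rfl, le_rfl⟩)
  have h3 : #K ≤ #C * ℵ₀ := by
    have h4 : (Set.univ : Set K) ⊆ ⋃ c : C, {x | y x = c.1} := fun x _ =>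
      mem_iUnion.2 ⟨⟨y x, hyC x⟩, rfl⟩
    rw [← mk_univ]
    refine (mk_le_mk_of_subset h4).trans ((mk_iUnion_le_sum_mk).trans ?_)
    refine (sum_le_sum _ (fun _ => ℵ₀) fun c : C => h2 c.1).trans ?_
    rw [sum_const']
  exact absurd h3 (not_le.2 (mul_lt_of_lt hK.le hC hK))

end Pool.Agent.V11242.CL
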