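import Mathlib
import Pool.Agent.V11242.CL.Cohen

/-!
# A Luzin set of singular size `cov(M)` which is a union of few meager sets
-/

set_option autoImplicit false

namespace Pool.Agent.V11242.CL

open Cardinal Set Pool.Agent.Helper669.Forcing Pool.Agent.H458R4.Cohen

section Cov

variable {ι : Type}

theorem down_notMeets (N : Set (Fn ι)) : Down (fnot (meets N)) := down_fnot _

theorem meets_fnot (φ : Set (Fn ι)) (hφ : Down φ) : meets (fnot φ) = fnot φ := by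
  ext p
  constructor
  · intro h q hq hq'
    obtain ⟨r, hr, s, hs, hrs⟩ := h q hq
    exact hs r hrs (hφ _ hq' _ hr)
  · intro h
    exact meets_of_mem h

/-- a set of dense sets is met, so `cov(M)` is large -/
theorem not_covLe (hι : ℵ₀ < #ι) {J : Type} (hJ : #J < #ι) (p : Fn ι) :
    p ∈ fnot (CovLe (Fn ι) J) := by
  intro q _ hq
  obtain ⟨q1, _, T, hT1, hT2⟩ := mem_fex.1 hq q le_rfl
  have hJ' : #(J × ℕ) < #ι := by
    rw [mk_prod]
    simp only [Cardinal.lift_id, mk_nat]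
    exact mul_lt_of_lt hι.le hJ hι
  have h1 := meetsDense hι hJ' q1 fun j t => fnot (meets (T j.1 j.2 t))
  obtain ⟨q2, hq2, h2⟩ := mem_fimp.1 h1 q1 le_rfl (by
    intro j s
    refine mem_fex.2 fun r hr => ?_
    obtain ⟨r', hr', t, ht1, ht2⟩ := mem_fex.1 (hT1 j.1 j.2 s) r hr
    exact ⟨r', hr', t, ht1, meets_of_mem ht2⟩)
  obtain ⟨q3, hq3, x, hx1, hx2⟩ := mem_fex.1 h2 q2 le_rfl
  obtain ⟨q4, hq4, h3⟩ := mem_fimp.1 (hT2 x) q3 (hq3.trans hq2) hx1
  obtain ⟨q5, hq5, j, hj⟩ := mem_fex.1 h3 q4 le_rfl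
  obtain ⟨q6, hq6, k, hk⟩ := mem_fex.1 hj q5 le_rfl
  obtain ⟨q7, hq7, t, ht1, ht2⟩ := mem_fex.1 (hx2 (j, k)) q6 (hq6.trans (hq5.trans hq4))
  rw [meets_fnot _ (down_meets _)] at ht2
  obtain ⟨q8, hq8, h4⟩ := mem_fimp.1 (hk t) q7 hq7 ht1
  exact ht2 q8 hq8 h4

theorem covLe_of_continuumLe {Y : Type} {p : Fn ι} (h : p ∈ ContinuumLe (Fn ι) Y) :
    p ∈ CovLe (Fn ι) Y := by
  refine mem_fex.2 fun q hq => ?_
  obtain ⟨r, hr, E, hE1, hE2⟩ := mem_fex.1 h q hq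
  refine ⟨r, hr, fun y _ s => InitSeg s (E y), fun y k s => ?_, fun x => ?_⟩
  · refine mem_fex.2 fun r' hr' => ?_
    obtain ⟨r2, h2, a, ha⟩ := IsFun.total (down_IsFun _ _ (hE1 y) _ hr') s.length
    refine ⟨r2, h2, s ++ [a + 1], List.prefix_append _ _, fun r3 h3 h4 => ?_⟩
    obtain ⟨r4, h5, r5, h6, h7⟩ := h4 r3 le_rfl
    have h8 := down_InitSeg _ _ _ h6 _ h7 s.length (by simp)
    have h9 : (s ++ [a + 1]).getD s.length 0 = a + 1 := by simp
    have h10 : r4 ∈ meets (E y s.length ((s ++ [a + 1]).getD s.length 0)) := h8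
    rw [h9] at h10
    have h11 := IsFun.unique (down_IsFun _ _ (hE1 y) _ ((h5.trans h3).trans (h2.trans hr')))
      (down_meets _ _ ha _ (h5.trans h3)) h10
    omega
  · refine mem_fimp.2 fun r1 h1 hx => ?_
    obtain ⟨r2, h2, h3⟩ := mem_fimp.1 (hE2 x) r1 h1 hx
    refine ⟨r2, h2, mem_fex.2 fun r3 h4 => ?_⟩
    obtain ⟨r4, h5, y, hy⟩ := mem_fex.1 h3 r3 h4
    refine ⟨r4, h5, y, mem_fex.2 fun r5 h6 => ⟨r5, le_rfl, 0, fun s => ?_⟩⟩
    refine mem_fimp.2 fun r6 h7 h8 => ⟨r6, le_rfl, meets_of_mem fun i hi => ?_⟩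
    have h9 : r6 ∈ meets (x i (s.getD i 0)) := h8 i hi
    intro r7 h10
    have hle : r7 ≤ r := h10.trans (h7.trans (h6.trans (h5.trans (h4.trans (h2.trans h1)))))
    obtain ⟨r8, h11, b, hb⟩ := IsFun.total (down_IsFun _ _ (hE1 y) _ hle) i
    have h12 := SameReal.eq (down_SameReal _ _ _ hy r8
      (h11.trans (h10.trans (h7.trans h6)))) (down_meets _ _ h9 r8 (h11.trans h10)) hb
    rw [← h12] at hb
    obtain ⟨r9, h13, s', h14, h15⟩ := hb r8 le_rfl
    exact ⟨r9, h13.trans h11, s', h14, h15⟩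

end Cov

variable {W K : Type}

/-- The member with index `α` of the Luzin set. It belongs to the closed nowhere dense set of all
`x` such that `x n` differs from the `n`-th value of the Cohen real with index `bl α`, for
every `n`. -/
def Y (bl : K → W) (α : K) (n v : ℕ) : Set (Fn (W ⊕ K)) :=
  {p | ∃ k m, p ∈ X (Sum.inr α) n k ∧ p ∈ X (Sum.inl (bl α)) n m ∧
    v = if k < m then k else k + 1}

/-- The closed nowhere dense sets. -/
def TT (i : W) (_k : ℕ) (s : List ℕ) : Set (Fn (W ⊕ K)) :=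
  {p | ∀ n < s.length, ∃ m, p ∈ X (Sum.inl i) n m ∧ s.getD n 0 ≠ m}

variable (bl : K → W)

theorem down_Y (α : K) (n v : ℕ) : Down (Y bl α n v) := by
  rintro p ⟨k, m, h1, h2, h3⟩ q hq
  exact ⟨k, m, down_X _ _ _ _ h1 _ hq, down_X _ _ _ _ h2 _ hq, h3⟩

theorem down_TT (i : W) (k : ℕ) (s : List ℕ) : Down (TT (K := K) i k s) := by
  intro p hp q hq n hn
  obtain ⟨m, h1, h2⟩ := hp n hn
  exact ⟨m, down_X _ _ _ _ h1 _ hq, h2⟩

theorem Y_unique {α : K} {n v v' : ℕ} {p : Fn (W ⊕ K)} (h : p ∈ Y bl α n v)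
    (h' : p ∈ Y bl α n v') : v = v' := by
  obtain ⟨k, m, h1, h2, h3⟩ := h
  obtain ⟨k', m', h1', h2', h3'⟩ := h'
  rw [h3, h3', X_unique h1 h1', X_unique h2 h2']

theorem isFun_Y (α : K) (p : Fn (W ⊕ K)) : p ∈ IsFun (Y bl α) := by
  refine ⟨fun n => mem_fex.2 fun q _ => ?_, fun n k k' => mem_fimp.2 fun q _ h => ?_⟩
  · obtain ⟨r, hr, k, hk, _⟩ := decide_one (Sum.inr α) n q
    obtain ⟨s, hs, m, hm, _⟩ := decide_one (Sum.inl (bl α)) n r
    exact ⟨s, hs.trans hr, _, meets_of_mem ⟨k, m, down_X _ _ _ _ hk _ hs, hm, rfl⟩⟩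
  · obtain ⟨r, hr, hr'⟩ := exists_of_meets (down_Y bl α n k) h.1
    obtain ⟨s, hs, hs'⟩ := exists_of_meets (down_Y bl α n k') (down_meets _ _ h.2 r hr)
    exact ⟨q, le_rfl, Y_unique bl (down_Y bl α n k _ hr' s hs) hs'⟩

theorem not_same {α β : K} (hne : α ≠ β) (p : Fn (W ⊕ K)) :
    p ∈ fnot (SameReal (Y bl α) (Y bl β)) := by
  classical
  intro q _ hq
  let F : Finset (W ⊕ K) := {Sum.inr α, Sum.inr β, Sum.inl (bl α), Sum.inl (bl β)}
  obtain ⟨r, hr, N, _, f, _, h2⟩ := clean_many F 0 q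
  let v : (W ⊕ K) × ℕ → ℕ := fun d => Sum.elim (fun _ => 2) (fun γ => if γ = α then 0 else 1) d.1
  obtain ⟨s, hs, h3⟩ := prescribe_many (F.image fun γ => (γ, N)) (q := r) (by
    intro d hd k b
    obtain ⟨γ, hγ, rfl⟩ := Finset.mem_image.1 hd
    exact h2 γ hγ N le_rfl k b) v
  have h4 : ∀ γ ∈ F, s ∈ X γ N (v (γ, N)) := fun γ hγ =>
    h3 (γ, N) (Finset.mem_image.2 ⟨γ, hγ, rfl⟩)
  have h5 : s ∈ Y bl α N 0 :=
    ⟨0, 2, by simpa [v] using h4 (Sum.inr α) (by simp [F]),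
      by simpa [v] using h4 (Sum.inl (bl α)) (by simp [F]), rfl⟩
  have h6 : s ∈ Y bl β N 1 :=
    ⟨1, 2, by simpa [v, hne.symm] using h4 (Sum.inr β) (by simp [F]),
      by simpa [v] using h4 (Sum.inl (bl β)) (by simp [F]), rfl⟩
  have h7 := SameReal.eq (down_SameReal _ _ _ hq s (hs.trans hr)) (meets_of_mem h5)
    (meets_of_mem h6)
  omega

theorem isMeagerCode_TT (i : W) (p : Fn (W ⊕ K)) : p ∈ IsMeagerCode (TT (K := K) i) := by
  intro k s
  refine mem_fex.2 fun q _ => ?_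
  obtain ⟨r, hr, m, hm, _⟩ := decide_one (Sum.inl i) s.length q
  refine ⟨r, hr, s ++ [m], List.prefix_append _ _, fun r1 h1 h2 => ?_⟩
  obtain ⟨r2, h3, h4⟩ := exists_of_meets (down_TT i k _) h2
  obtain ⟨m', h5, h6⟩ := h4 s.length (by simp)
  have h7 : (s ++ [m]).getD s.length 0 = m := by simp
  rw [h7] at h6
  exact h6 (X_unique (down_X _ _ _ _ hm _ (h3.trans h1)) h5)

theorem inMeager_TT (α : K) (p : Fn (W ⊕ K)) : p ∈ InMeager (Y bl α) (TT (bl α)) := by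
  classical
  refine mem_fex.2 fun q _ => ⟨q, le_rfl, 0, fun s => ?_⟩
  refine mem_fimp.2 fun r _ hs => ⟨r, le_rfl, fun r1 h1 => ?_⟩
  have h2 : ∀ M ≤ s.length, ∃ r2 ≤ r1, ∀ n < M, ∃ m, r2 ∈ X (Sum.inl (bl α)) n m ∧
      s.getD n 0 ≠ m := by
    intro M
    induction M with
    | zero => intro _; exact ⟨r1, le_rfl, fun n hn => absurd hn (Nat.not_lt_zero _)⟩
    | succ M ih =>
      intro hM
      obtain ⟨r2, h3, h4⟩ := ih (by omega)
      have h5 : r2 ∈ meets (Y bl α M (s.getD M 0)) :=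
        down_meets _ _ (hs M (by omega)) _ (h3.trans h1)
      obtain ⟨r3, h6, k, m, h7, h8, h9⟩ := exists_of_meets (down_Y bl α _ _) h5
      refine ⟨r3, h6.trans h3, fun n hn => ?_⟩
      rcases Nat.lt_succ_iff_lt_or_eq.1 hn with h | rfl
      · obtain ⟨m', h10, h11⟩ := h4 n h
        exact ⟨m', down_X _ _ _ _ h10 _ h6, h11⟩
      · refine ⟨m, h8, ?_⟩
        rw [h9]
        split_ifs with hkm <;> omega
  obtain ⟨r2, h3, h4⟩ := h2 s.length le_rfl
  exact ⟨r2, h3, r2, h4, le_rfl⟩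

/-- Every meager set contains few members of the Luzin set. -/
theorem not_fullSize (hK : ℵ₀ < #K)
    (hbl : ∀ S : Set W, S.Countable → #(bl ⁻¹' S) < #K) {T : ℕ → List ℕ → Set (Fn (W ⊕ K))}
    {q : Fn (W ⊕ K)} (hT : q ∈ IsMeagerCode T) :
    q ∈ fnot (FullSize fun α => InMeager (Y bl α) T) := by
  classical
  intro q0 hq0 hfull
  -- the antichains
  have hE : ∀ x : ℕ × List ℕ, ∃ A ⊆ {r : Fn (W ⊕ K) |
      (∃ t, x.2 <+: t ∧ r ∈ fnot (meets (T x.1 t))) ∨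
      ¬ Compat r q}, A.Countable ∧ (∀ p, ∃ a ∈ A, Compat a p) ∧
      ∀ a ∈ A, ∀ b ∈ A, Compat a b → a = b := by
    rintro ⟨j, s⟩
    apply exists_antichain
    intro r
    by_cases hr : Compat r q
    · obtain ⟨r', h1, h2⟩ := hr
      obtain ⟨r'', h3, t, h4, h5⟩ := mem_fex.1 (hT j s) r' h2
      exact ⟨r'', h3.trans h1, Or.inl ⟨t, h4, h5⟩⟩
    · exact ⟨r, le_rfl, Or.inr hr⟩
  choose A hAE hAc hApre _ using hE
  let S : Set (W ⊕ K) := ⋃ x : ℕ × List ℕ, ⋃ a ∈ A x,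
    (fun y : ((W ⊕ K) × ℕ) × Bool => y.1.1) '' (a.g : Set (((W ⊕ K) × ℕ) × Bool))
  have hS : S.Countable := Set.countable_iUnion fun x =>
    (hAc x).biUnion fun a _ => (Finset.countable_toSet _).image _
  let C : Set K := (Sum.inr ⁻¹' S) ∪ (bl ⁻¹' (Sum.inl ⁻¹' S))
  have hC : #C < #K := by
    refine (mk_union_le _ _).trans_lt (add_lt_of_lt hK.le ?_ (hbl _ ?_))
    · refine lt_of_le_of_lt ?_ hK
      rw [Cardinal.le_aleph0_iff_set_countable]
      exact hS.preimage_of_injOn Sum.inr_injective.injOn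
    · exact hS.preimage_of_injOn Sum.inl_injective.injOn
  obtain ⟨α, hα, r, hr, hin⟩ := exists_mem_outside hK hfull hC
  obtain ⟨r0, hr0, k, hk⟩ := mem_fex.1 hin r le_rfl
  have hα1 : (Sum.inr α : W ⊕ K) ∉ S := fun h => hα (Or.inl h)
  have hα2 : (Sum.inl (bl α) : W ⊕ K) ∉ S := fun h => hα (Or.inr h)
  let F : Finset (W ⊕ K) := {Sum.inr α, Sum.inl (bl α)}
  obtain ⟨r1, h1, N, _, f, h2, h3⟩ := clean_many F 0 r0
  let w : ℕ → ℕ := fun n => if f (Sum.inr α) n < f (Sum.inl (bl α)) n then f (Sum.inr α) n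
    else f (Sum.inr α) n + 1
  obtain ⟨a, haA, hcomp⟩ := hApre (k, (List.range N).map w) r1
  obtain ⟨r2, h6, h7, h8⟩ := exists_union hcomp
  rcases hAE _ haA with ⟨t, ht, hta⟩ | hinc
  · have h9 : ∀ d ∈ F ×ˢ (Finset.range t.length \ Finset.range N), ∀ k b,
        ((d.1, Nat.pair d.2 k), b) ∉ r2.g := by
      intro d hd k b hb
      obtain ⟨hd1, hd2⟩ := Finset.mem_product.1 hd
      have hd3 : N ≤ d.2 := by
        have := (Finset.mem_sdiff.1 hd2).2
        rw [Finset.mem_range, not_lt] at this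
        exact this
      rcases h8 _ hb with hb | hb
      · have hdS : d.1 ∈ S := mem_iUnion.2 ⟨_, mem_biUnion haA ⟨_, Finset.mem_coe.2 hb, rfl⟩⟩
        rcases Finset.mem_insert.1 hd1 with h | h
        · exact hα1 (h ▸ hdS)
        · exact hα2 ((Finset.mem_singleton.1 h) ▸ hdS)
      · exact h3 d.1 hd1 d.2 hd3 k b hb
    let g : (W ⊕ K) × ℕ → ℕ := fun d =>
      Sum.elim (fun _ => t.getD d.2 0 + 1) (fun _ => t.getD d.2 0) d.1
    obtain ⟨r3, h10, h11⟩ := prescribe_many _ h9 g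
    have hseg : r3 ∈ InitSeg t (Y bl α) := by
      intro n hn
      apply meets_of_mem
      rcases lt_or_ge n N with h | h
      · have h12 : t.getD n 0 = w n := by
          obtain ⟨u, rfl⟩ := ht
          rw [List.getD_append _ _ _ _ (by simpa using h)]
          simp [h]
        rw [h12]
        exact ⟨_, _, down_X _ _ _ _ (h2 (Sum.inr α) (by simp [F]) n h) _ (h10.trans h7),
          down_X _ _ _ _ (h2 (Sum.inl (bl α)) (by simp [F]) n h) _ (h10.trans h7), rfl⟩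
      · have hn' : n ∈ Finset.range t.length \ Finset.range N := by
          rw [Finset.mem_sdiff, Finset.mem_range, Finset.mem_range]
          exact ⟨hn, not_lt.2 h⟩
        refine ⟨t.getD n 0, t.getD n 0 + 1, ?_, ?_, ?_⟩
        · exact h11 (Sum.inr α, n) (Finset.mem_product.2 ⟨by simp [F], hn'⟩)
        · exact h11 (Sum.inl (bl α), n) (Finset.mem_product.2 ⟨by simp [F], hn'⟩)
        · rw [if_pos (Nat.lt_succ_self _)]
    obtain ⟨r4, h12, h13⟩ := mem_fimp.1 (hk t) r3 (h10.trans (h7.trans h1)) hseg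
    exact hta r4 (h12.trans (h10.trans h6)) h13
  · exact hinc ⟨r2, h6, h7.trans (h1.trans (hr0.trans (hr.trans hq0)))⟩

end Pool.Agent.V11242.CL
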